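import Pool.Agent.Helper20.DFJ.Markov

/-!
# DFJ: Alg, Defs, Wada, L1c, A1
-/

section

/-!
# DFJ: crossed homomorphisms with values in two-sided sequences (definitions and elementary lemmas)

`V` a representation `ρ` of `G` over a field `F`, `α : G →* Multiplicative ℤ`.
`seqRep ρ α` is the representation on `ℤ → V` given by `(g f)(i) = ρ(g) f(i - α g)`.
`Zc σ` is the space of crossed homomorphisms `c (g h) = c g + σ g (c h)`; `Zt σ t` those vanishing at `t`.
-/

namespace Pool.Agent.Helper95.DFJ

open Multiplicative

section Defs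
variable {F : Type*} [Field F] {V : Type*} [AddCommGroup V] [Module F V] {G : Type*} [Group G]

/-- two-sided sequences -/
def seqRep (ρ : Representation F G V) (α : G →* Multiplicative ℤ) : Representation F G (ℤ → V) where
  toFun g :=
    { toFun := fun f i => ρ g (f (i - toAdd (α g)))
      map_add' := fun f h => by funext i; simp
      map_smul' := fun r f => by funext i; simp }
  map_one' := by ext f i; simp
  map_mul' g h := by
    refine LinearMap.ext fun f => funext fun i => ?_
    simp only [LinearMap.coe_mk, AddHom.coe_mk, Module.End.mul_apply, map_mul, toAdd_mul]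
    rw [sub_sub]

theorem seqRep_apply (ρ : Representation F G V) (α : G →* Multiplicative ℤ) (g : G) (f : ℤ → V) (i : ℤ) :
    seqRep ρ α g f i = ρ g (f (i - toAdd (α g))) := rfl

variable {M : Type*} [AddCommGroup M] [Module F M]

/-- crossed homomorphisms -/
def Zc (σ : Representation F G M) : Submodule F (G → M) where
  carrier := {c | ∀ g h, c (g * h) = c g + σ g (c h)}
  add_mem' {a b} ha hb g h := by
    simp only [Pi.add_apply, map_add, ha g h, hb g h]; abel
  zero_mem' g h := by simp
  smul_mem' r c hc g h := by simp only [Pi.smul_apply, map_smul, hc g h, smul_add]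

/-- crossed homomorphisms vanishing at `t` -/
def Zt (σ : Representation F G M) (t : G) : Submodule F (G → M) where
  carrier := {c | c ∈ Zc σ ∧ c t = 0}
  add_mem' {a b} ha hb := ⟨add_mem ha.1 hb.1, by rw [Pi.add_apply, ha.2, hb.2, add_zero]⟩
  zero_mem' := ⟨zero_mem _, rfl⟩
  smul_mem' r c hc := ⟨Submodule.smul_mem _ r hc.1, by rw [Pi.smul_apply, hc.2, smul_zero]⟩

theorem mem_Zc {σ : Representation F G M} {c : G → M} :
    c ∈ Zc σ ↔ ∀ g h, c (g * h) = c g + σ g (c h) := Iff.rfl

theorem mem_Zt {σ : Representation F G M} {t : G} {c : G → M} :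
    c ∈ Zt σ t ↔ c ∈ Zc σ ∧ c t = 0 := Iff.rfl

/-- coboundary -/
def cob (σ : Representation F G M) (m : M) : G → M := fun g => σ g m - m

theorem cob_mem (σ : Representation F G M) (m : M) : cob σ m ∈ Zc σ := by
  intro g h
  simp only [cob, map_mul, Module.End.mul_apply, map_sub]; abel

theorem Zc_one {σ : Representation F G M} {c : G → M} (hc : c ∈ Zc σ) : c 1 = 0 := by
  have := hc 1 1
  simp only [mul_one, map_one, Module.End.one_apply] at this
  simpa using this

theorem Zc_inv {σ : Representation F G M} {c : G → M} (hc : c ∈ Zc σ) (g : G) :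
    c g⁻¹ = - σ g⁻¹ (c g) := by
  have := hc g⁻¹ g
  rw [inv_mul_cancel, Zc_one hc] at this
  exact eq_neg_of_add_eq_zero_left this.symm

/-- two crossed homomorphisms which agree on generators are equal -/
theorem Zc_ext {σ : Representation F G M} {c d : G → M} (hc : c ∈ Zc σ) (hd : d ∈ Zc σ) (S : Set G)
    (hS : Subgroup.closure S = ⊤) (h : ∀ s ∈ S, c s = d s) : c = d := by
  let K : Subgroup G :=
    { carrier := {g | c g = d g}
      mul_mem' := fun {a b} ha hb => by
        show c (a * b) = d (a * b)
        rw [hc a b, hd a b]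
        rw [show c a = d a from ha, show c b = d b from hb]
      one_mem' := by show c 1 = d 1; rw [Zc_one hc, Zc_one hd]
      inv_mem' := fun {a} ha => by
        show c a⁻¹ = d a⁻¹
        rw [Zc_inv hc, Zc_inv hd, show c a = d a from ha] }
  have : K = ⊤ := by
    rw [eq_top_iff, ← hS, Subgroup.closure_le]
    exact h
  funext g
  have : g ∈ K := this ▸ Subgroup.mem_top g
  exact this

/-- the affine permutation `x ↦ g x + m` -/
def aff (σ : Representation F G M) (g : G) (m : M) : Equiv.Perm M where
  toFun x := σ g x + m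
  invFun x := σ g⁻¹ (x - m)
  left_inv x := by
    show σ g⁻¹ (σ g x + m - m) = x
    rw [add_sub_cancel_right, ← Module.End.mul_apply, ← map_mul, inv_mul_cancel, map_one, Module.End.one_apply]
  right_inv x := by
    show σ g (σ g⁻¹ (x - m)) + m = x
    rw [← Module.End.mul_apply, ← map_mul, mul_inv_cancel, map_one, Module.End.one_apply, sub_add_cancel]

theorem aff_apply (σ : Representation F G M) (g : G) (m x : M) : aff σ g m x = σ g x + m := rfl

theorem aff_mul (σ : Representation F G M) (g h : G) (m n : M) :
    aff σ g m * aff σ h n = aff σ (g * h) (m + σ g n) := by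
  apply Equiv.ext; intro x
  show σ g (σ h x + n) + m = σ (g * h) x + (m + σ g n)
  rw [map_add, map_mul, Module.End.mul_apply]; abel

theorem aff_one (σ : Representation F G M) : aff σ 1 0 = 1 := by
  apply Equiv.ext; intro x
  show σ 1 x + 0 = x
  rw [map_one, Module.End.one_apply, add_zero]

theorem aff_inv (σ : Representation F G M) (g : G) (m : M) :
    (aff σ g m)⁻¹ = aff σ g⁻¹ (-(σ g⁻¹ m)) := by
  rw [inv_eq_iff_mul_eq_one, aff_mul, mul_inv_cancel, map_neg, ← Module.End.mul_apply, ← map_mul,
    mul_inv_cancel, map_one, Module.End.one_apply, add_neg_cancel, aff_one]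

end Defs
end Pool.Agent.Helper95.DFJ

end

section

/-!
# DFJ: definitions for the algebraic part T4
-/

namespace Pool.Agent.Helper95.DFJ

open Multiplicative

section Trunc
variable (F : Type*) [Field F] (V : Type*) [AddCommGroup V] [Module F V]

/-- truncation of two-sided sequences: keep the indices `≥ k` -/
def trunc (k : ℤ) : (ℤ → V) →ₗ[F] (ℤ → V) where
  toFun f i := if k ≤ i then f i else 0
  map_add' f g := by funext i; by_cases h : k ≤ i <;> simp [h]
  map_smul' r f := by funext i; by_cases h : k ≤ i <;> simp [h]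

end Trunc

section Rels
variable {H : Type*} [Group H]

/-- `d = t b c b⁻¹ t⁻¹` -/
def dW (b c t : H) : H := t * b * c * b⁻¹ * t⁻¹

/-- `a = t⁻¹ (d⁻¹ b d) t` -/
def aW (b c t : H) : H := t⁻¹ * ((dW b c t)⁻¹ * b * dW b c t) * t

/-- loops of the two disks -/
def X3 (b c t : H) : H := b⁻¹ * (aW b c t)⁻¹ * b * c * b⁻¹ * aW b c t * b

def X4 (b c t : H) : H :=
  c⁻¹ * (dW b c t)⁻¹ * c * b⁻¹ * (aW b c t)⁻¹ * b * c⁻¹ * dW b c t * c

def X5 (b c t : H) : H :=
  c⁻¹ * (dW b c t)⁻¹ * c * b⁻¹ * aW b c t * b * c⁻¹ * dW b c t * c * b⁻¹ * (aW b c t)⁻¹ * b * c⁻¹ *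
    dW b c t * c

def X6 (b c t : H) : H := c⁻¹ * (dW b c t)⁻¹ * b⁻¹ * dW b c t * c

/-- the relations of the orbifold group -/
def Rel (b c t : H) : Prop :=
  b ^ 3 = 1 ∧ c ^ 4 = 1 ∧
  c⁻¹ * (t * b⁻¹ * t⁻¹) * c = t * X4 b c t * t⁻¹ ∧
  c⁻¹ * (t * b * t⁻¹) * c * (t * b⁻¹ * t⁻¹) * c = X5 b c t

/-- `G` is the group presented by `b, c, t` and `Rel` (in the form of its universal property) -/
def IsUniv {G : Type} [Group G] (b c t : G) : Prop :=
  Rel b c t ∧ Subgroup.closure {b, c, t} = ⊤ ∧
  ∀ (K : Type) [Group K] (b' c' t' : K), Rel b' c' t' → ∃ f : G →* K, f b = b' ∧ f c = c' ∧ f t = t'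

end Rels

section Twist
variable {F : Type*} [Field F] {M : Type*} [AddCommGroup M] [Module F M] {G : Type*} [Group G]

/-- twist of a representation by a character -/
def tw (κ : G →* Fˣ) (σ : Representation F G M) : Representation F G M where
  toFun g := (κ g : F) • σ g
  map_one' := by simp
  map_mul' g h := by
    refine LinearMap.ext fun x => ?_
    simp only [map_mul, Units.val_mul, LinearMap.smul_apply, Module.End.mul_apply, map_smul, smul_smul]
    rw [mul_comm (κ h : F) (κ g : F)]

theorem tw_apply (κ : G →* Fˣ) (σ : Representation F G M) (g : G) (x : M) :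
    tw κ σ g x = (κ g : F) • σ g x := rfl

theorem seqRep_tw {V : Type*} [AddCommGroup V] [Module F V] (κ : G →* Fˣ) (ρ : Representation F G V)
    (α : G →* Multiplicative ℤ) : seqRep (tw κ ρ) α = tw κ (seqRep ρ α) := rfl

/-- restriction to a subgroup -/
def resRep (K : Subgroup G) (σ : Representation F G M) : Representation F K M := σ.comp K.subtype

theorem resRep_apply (K : Subgroup G) (σ : Representation F G M) (g : K) (x : M) :
    resRep K σ g x = σ (g : G) x := rfl

end Twist

section Braids

/-- a crossing letter: `(i, true) = σ_i`, `(i, false) = σ_i⁻¹` (strands are numbered from 0; the letter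
exchanges the strands at the places `i`, `i+1`) -/
abbrev Letter := ℕ × Bool

variable {H : Type*} [Group H]

/-- the Wirtinger relations at one crossing: the labels `x` of the strands before the crossing give the labels
after the crossing. For `σ_i` the strand at place `i` passes over and goes to place `i+1`. -/
def crossing (l : Letter) (x : ℕ → H) : ℕ → H :=
  if l.2 then
    Function.update (Function.update x l.1 (x l.1 * x (l.1 + 1) * (x l.1)⁻¹)) (l.1 + 1) (x l.1)
  else
    Function.update (Function.update x l.1 (x (l.1 + 1))) (l.1 + 1) ((x (l.1 + 1))⁻¹ * x l.1 * x (l.1 + 1))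

/-- labels after a braid word -/
def labels (w : List Letter) (x : ℕ → H) : ℕ → H := w.foldl (fun y l => crossing l y) x

/-- generic labels: the free generators -/
def genLabels (n : ℕ) : ℕ → FreeGroup (Fin n) := fun j => if h : j < n then FreeGroup.of ⟨j, h⟩ else 1

/-- the relators of the group of the closed braid: the labels at the end equal the labels at the beginning -/
def closureRels (n : ℕ) (w : List Letter) : Set (FreeGroup (Fin n)) :=
  {r | ∃ j < n, r = labels w (genLabels n) j * (genLabels n j)⁻¹}

/-- the group of the closure of a braid word (Wirtinger presentation of the closed braid diagram, with the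
labels of the inner arcs eliminated) -/
abbrev ClosureGroup (n : ℕ) (w : List Letter) : Type := PresentedGroup (closureRels n w)

/-- the meridian of the strand `i` -/
def mer (n : ℕ) (w : List Letter) (i : Fin n) : ClosureGroup n w := PresentedGroup.of i

/-- permutation of the places -/
def permLetter (l : Letter) (i : ℕ) : ℕ := if i = l.1 then l.1 + 1 else if i = l.1 + 1 then l.1 else i

def permWord (w : List Letter) (i : ℕ) : ℕ := w.foldl (fun j l => permLetter l j) i

/-- a band: `(s, t, e)` joins the disks `s < t` by a half twisted band of sign `e` -/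
abbrev Band := ℕ × ℕ × Bool

/-- the Birman-Ko-Lee word of a band: `(σ_{t-1} ⋯ σ_{s+1}) σ_s^{±1} (σ_{t-1} ⋯ σ_{s+1})⁻¹` -/
def bandWord (b : Band) : List Letter :=
  ((List.range (b.2.1 - b.1 - 1)).map fun k => (b.2.1 - 1 - k, true)) ++ [(b.1, b.2.2)] ++
    ((List.range (b.2.1 - b.1 - 1)).map fun k => (b.1 + 1 + k, false))

/-- a braided Seifert surface (Rudolph): `n` parallel disks and bands -/
structure BandSurface where
  n : ℕ
  bands : List Band
  valid : ∀ b ∈ bands, b.1 < b.2.1 ∧ b.2.1 < n

/-- the braid word whose closure is the boundary of the surface -/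
def BandSurface.word (S : BandSurface) : List Letter := S.bands.flatMap bandWord

/-- the boundary is connected -/
def BandSurface.IsKnot (S : BandSurface) : Prop := ∀ i < S.n, ∃ m : ℕ, (permWord S.word)^[m] 0 = i

/-- the group of the boundary -/
abbrev BandSurface.Grp (S : BandSurface) : Type := ClosureGroup S.n S.word

/-- the surface has genus `h` (connected boundary): `χ = n - k = 1 - 2h` -/
def BandSurface.HasGenus (S : BandSurface) (h : ℕ) : Prop := S.bands.length + 1 = S.n + 2 * h

end Braids
end Pool.Agent.Helper95.DFJ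

end

section

/-!
# DFJ: Fox calculus and the twisted Alexander polynomial (Wada's invariant)
-/

noncomputable section

namespace Pool.Agent.Helper95.DFJ

open Multiplicative Module
open scoped LaurentPolynomial MatrixGroups

/-- Fox derivative of a word with respect to the generator `j` -/
def foxList {n : ℕ} (j : Fin n) : List (Fin n × Bool) → MonoidAlgebra ℤ (FreeGroup (Fin n))
  | [] => 0
  | (i, true) :: L =>
      (if i = j then 1 else 0) + MonoidAlgebra.single (FreeGroup.of i) 1 * foxList j L
  | (i, false) :: L =>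
      MonoidAlgebra.single (FreeGroup.of i)⁻¹ 1 * (foxList j L - (if i = j then 1 else 0))

/-- Fox derivative on the free group -/
def fox {n : ℕ} (j : Fin n) (w : FreeGroup (Fin n)) : MonoidAlgebra ℤ (FreeGroup (Fin n)) :=
  foxList j w.toWord

variable {G : Type*} [Group G]

/-- `g ↦ T ^ α(g) ρ(g)` -/
def tensorHom (ρ : G →* SL(2, ℂ)) (α : G →* Multiplicative ℤ) :
    G →* Matrix (Fin 2) (Fin 2) ℂ[T;T⁻¹] where
  toFun g := (LaurentPolynomial.T (toAdd (α g)) : ℂ[T;T⁻¹]) •
    ((ρ g : Matrix (Fin 2) (Fin 2) ℂ).map LaurentPolynomial.C)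
  map_one' := by
    ext i j
    by_cases h : i = j
    · subst h; simp
    · simp [h]
  map_mul' g h := by
    have h1 : (ρ (g * h) : Matrix (Fin 2) (Fin 2) ℂ) = (ρ g : Matrix (Fin 2) (Fin 2) ℂ) * (ρ h : Matrix (Fin 2) (Fin 2) ℂ) := by
      rw [map_mul]; rfl
    have h2 : toAdd (α (g * h)) = toAdd (α g) + toAdd (α h) := by rw [map_mul]; rfl
    rw [h1, h2, LaurentPolynomial.T_add, Matrix.map_mul, Matrix.smul_mul, Matrix.mul_smul, smul_smul]

/-- `Φ` on the group ring of the free group of a presentation `π` -/
def wadaPhi {n : ℕ} (ρ : G →* SL(2, ℂ)) (α : G →* Multiplicative ℤ) (π : FreeGroup (Fin n) →* G) :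
    MonoidAlgebra ℤ (FreeGroup (Fin n)) →ₐ[ℤ] Matrix (Fin 2) (Fin 2) ℂ[T;T⁻¹] :=
  MonoidAlgebra.lift ℤ (Matrix (Fin 2) (Fin 2) ℂ[T;T⁻¹]) (FreeGroup (Fin n)) ((tensorHom ρ α).comp π)

/-- the numerator of Wada's invariant: determinant of the Fox matrix without the column `k` -/
def wadaNum {m : ℕ} (ρ : G →* SL(2, ℂ)) (α : G →* Multiplicative ℤ)
    (r : Fin m → FreeGroup (Fin (m + 1))) (π : FreeGroup (Fin (m + 1)) →* G) (k : Fin (m + 1)) : ℂ[T;T⁻¹] :=
  Matrix.det (Matrix.of fun (p q : Fin m × Fin 2) =>
    wadaPhi ρ α π (fox (k.succAbove q.1) (r p.1)) p.2 q.2)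

/-- the denominator of Wada's invariant: `det Φ(x_k - 1)` -/
def wadaDen {m : ℕ} (ρ : G →* SL(2, ℂ)) (α : G →* Multiplicative ℤ)
    (π : FreeGroup (Fin (m + 1)) →* G) (k : Fin (m + 1)) : ℂ[T;T⁻¹] :=
  Matrix.det (wadaPhi ρ α π (MonoidAlgebra.single (FreeGroup.of k) 1 - 1))

/-- degree of a Laurent polynomial: highest exponent minus lowest exponent (and `0` for the zero polynomial) -/
def breadth (f : ℂ[T;T⁻¹]) : ℤ :=
  if h : f.coeff.support.Nonempty then f.coeff.support.max' h - f.coeff.support.min' h else 0

/-- `⟨x_0, …, x_m | r_0, …, r_{m-1}⟩` is a presentation of `G` through `π` -/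
def IsPresentation {m : ℕ} (r : Fin m → FreeGroup (Fin (m + 1))) (π : FreeGroup (Fin (m + 1)) →* G) : Prop :=
  Function.Surjective π ∧ π.ker = Subgroup.normalClosure (Set.range r)

/-- the representation on `ℂ²` -/
def repV (ρ : G →* SL(2, ℂ)) : Representation ℂ G (Fin 2 → ℂ) where
  toFun g := Matrix.toLin' (ρ g : Matrix (Fin 2) (Fin 2) ℂ)
  map_one' := by simp; rfl
  map_mul' g h := by simp [Matrix.toLin'_mul]; rfl

end Pool.Agent.Helper95.DFJ

end

end

section

/-!
# DFJ piece L1c (universal property of the closure group, and connectedness)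
-/

namespace Pool.Agent.Helper95.DFJ

open Multiplicative Module

section L1c

/-- the meridians as labels -/
def merL (n : ℕ) (w : List Letter) : ℕ → ClosureGroup n w := fun j => if h : j < n then mer n w ⟨j, h⟩ else 1

private theorem crossing_map {H K : Type*} [Group H] [Group K] (f : H →* K) (l : Letter) (x : ℕ → H) :
    crossing l (fun j => f (x j)) = fun j => f (crossing l x j) := by
  funext j
  unfold crossing
  split_ifs with h
  · simp only [Function.update_apply]
    split_ifs <;> simp
  · simp only [Function.update_apply]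
    split_ifs <;> simp

private theorem labels_map {H K : Type*} [Group H] [Group K] (f : H →* K) (w : List Letter) (x : ℕ → H) :
    labels w (fun j => f (x j)) = fun j => f (labels w x j) := by
  unfold labels
  induction w generalizing x with
  | nil => rfl
  | cons l w ih =>
    rw [List.foldl_cons, List.foldl_cons, crossing_map, ih]

private theorem crossing_ge {H : Type*} [Group H] (l : Letter) (x : ℕ → H) (j : ℕ) (h : l.1 + 1 < j) :
    crossing l x j = x j := by
  unfold crossing
  split_ifs with hb
  · rw [Function.update_of_ne (by omega), Function.update_of_ne (by omega)]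
  · rw [Function.update_of_ne (by omega), Function.update_of_ne (by omega)]

private theorem labels_ge {H : Type*} [Group H] (n : ℕ) (w : List Letter) (hw : ∀ l ∈ w, l.1 + 1 < n)
    (x : ℕ → H) (j : ℕ) (h : n ≤ j) : labels w x j = x j := by
  unfold labels
  induction w generalizing x with
  | nil => rfl
  | cons l w ih =>
    rw [List.foldl_cons, ih (fun l' hl' => hw l' (List.mem_cons_of_mem _ hl'))]
    exact crossing_ge l x j (lt_of_lt_of_le (hw l List.mem_cons_self) h)

private theorem merL_eq (n : ℕ) (w : List Letter) :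
    merL n w = fun j => PresentedGroup.mk (closureRels n w) (genLabels n j) := by
  funext j
  unfold merL genLabels
  split_ifs with h
  · rfl
  · simp

theorem closure_labels (n : ℕ) (w : List Letter) (hw : ∀ l ∈ w, l.1 + 1 < n) :
    labels w (merL n w) = merL n w := by
  rw [merL_eq, labels_map]
  funext j
  by_cases hj : j < n
  · have hr : labels w (genLabels n) j * (genLabels n j)⁻¹ ∈ closureRels n w := ⟨j, hj, rfl⟩
    have h1 : PresentedGroup.mk (closureRels n w) (labels w (genLabels n) j * (genLabels n j)⁻¹) = 1 :=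
      PresentedGroup.one_of_mem hr
    rw [map_mul, map_inv, mul_inv_eq_one] at h1
    exact h1
  · simp only [labels_ge n w hw (genLabels n) j (by omega)]

theorem closure_univ (n : ℕ) (w : List Letter) {K : Type*} [Group K] (y : ℕ → K)
    (hy : ∀ j, n ≤ j → y j = 1) (h : labels w y = y) :
    ∃ f : ClosureGroup n w →* K, ∀ i : Fin n, f (mer n w i) = y i := by
  let g : Fin n → K := fun i => y i
  have hg : (fun j => FreeGroup.lift g (genLabels n j)) = y := by
    funext j
    by_cases hj : j < n
    · simp [genLabels, hj, g]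
    · simp [genLabels, hj, hy j (by omega)]
  have hr : ∀ r ∈ closureRels n w, FreeGroup.lift g r = 1 := by
    rintro r ⟨j, _, rfl⟩
    rw [map_mul, map_inv]
    have h2 : labels w (fun j => FreeGroup.lift g (genLabels n j)) j =
        FreeGroup.lift g (labels w (genLabels n) j) := congrFun (labels_map (FreeGroup.lift g) w (genLabels n)) j
    rw [← h2, hg, h, mul_inv_eq_one]
    exact (congrFun hg j).symm
  refine ⟨PresentedGroup.toGroup hr, fun i => ?_⟩
  exact PresentedGroup.toGroup.of hr

theorem closure_gen (n : ℕ) (w : List Letter) : Subgroup.closure (Set.range (mer n w)) = ⊤ := by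
  exact PresentedGroup.closure_range_of (closureRels n w)

theorem bandWord_valid (n : ℕ) (b : Band) (h : b.1 < b.2.1) (h' : b.2.1 < n) :
    ∀ l ∈ bandWord b, l.1 + 1 < n := by
  intro l hl
  unfold bandWord at hl
  simp only [List.mem_append, List.mem_map, List.mem_range, List.mem_singleton] at hl
  rcases hl with (⟨k, hk, rfl⟩ | rfl) | ⟨k, hk, rfl⟩
  · show b.2.1 - 1 - k + 1 < n
    omega
  · show b.1 + 1 < n
    omega
  · show b.1 + 1 + k + 1 < n
    omega

theorem surface_word_valid (S : BandSurface) : ∀ l ∈ S.word, l.1 + 1 < S.n := by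
  intro l hl
  unfold BandSurface.word at hl
  rw [List.mem_flatMap] at hl
  obtain ⟨b, hb, hl⟩ := hl
  exact bandWord_valid S.n b (S.valid b hb).1 (S.valid b hb).2 l hl

private theorem permWord_append (u v : List Letter) (i : ℕ) :
    permWord (u ++ v) i = permWord v (permWord u i) := by
  unfold permWord
  rw [List.foldl_append]

private theorem perm_aux (s : ℕ) (e : Bool) (m : ℕ) (i : ℕ) :
    permWord (((List.range m).map fun k => (s + 1 + m - 1 - k, true)) ++ [(s, e)] ++
      ((List.range m).map fun k => (s + 1 + k, false))) i =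
      if i = s then s + 1 + m else if i = s + 1 + m then s else i := by
  induction m generalizing i with
  | zero =>
    simp only [List.range_zero, List.map_nil, List.nil_append, List.append_nil]
    unfold permWord permLetter
    simp only [List.foldl_cons, List.foldl_nil, Nat.add_zero]
  | succ m ih =>
    have h1 : ((List.range (m + 1)).map fun k => ((s + 1 + (m + 1) - 1 - k, true) : Letter)) =
        [(s + 1 + m, true)] ++ (List.range m).map fun k => ((s + 1 + m - 1 - k, true) : Letter) := by
      rw [List.range_succ_eq_map, List.map_cons, List.map_map, List.singleton_append]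
      congr 1
      apply List.map_congr_left
      intro k hk
      rw [List.mem_range] at hk
      show ((s + 1 + (m + 1) - 1 - (k + 1), true) : Letter) = (s + 1 + m - 1 - k, true)
      congr 1
      omega
    have h2 : ((List.range (m + 1)).map fun k => ((s + 1 + k, false) : Letter)) =
        ((List.range m).map fun k => ((s + 1 + k, false) : Letter)) ++ [(s + 1 + m, false)] := by
      rw [List.range_succ, List.map_append]
      rfl
    have h3 : ((List.range (m + 1)).map fun k => ((s + 1 + (m + 1) - 1 - k, true) : Letter)) ++ [(s, e)] ++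
        ((List.range (m + 1)).map fun k => ((s + 1 + k, false) : Letter)) =
        [(s + 1 + m, true)] ++ ((((List.range m).map fun k => ((s + 1 + m - 1 - k, true) : Letter)) ++
          [(s, e)] ++ ((List.range m).map fun k => ((s + 1 + k, false) : Letter))) ++
            [(s + 1 + m, false)]) := by
      rw [h1, h2]
      simp only [List.append_assoc]
    rw [h3, permWord_append, permWord_append, ih]
    have h4 : ∀ (c : Bool) (j : ℕ), permWord [(s + 1 + m, c)] j =
        if j = s + 1 + m then s + 1 + m + 1 else if j = s + 1 + m + 1 then s + 1 + m else j := by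
      intro c j
      rfl
    rw [h4, h4]
    split_ifs <;> omega

/-- the permutation of a band word exchanges `s` and `t` -/
theorem perm_band (b : Band) (h : b.1 < b.2.1) (i : ℕ) :
    permWord (bandWord b) i = if i = b.1 then b.2.1 else if i = b.2.1 then b.1 else i := by
  obtain ⟨s, t, e⟩ := b
  simp only at h ⊢
  obtain ⟨m, rfl⟩ : ∃ m, t = s + 1 + m := ⟨t - s - 1, by omega⟩
  have h1 := perm_aux s e m i
  have h2 : s + 1 + m - s - 1 = m := by omega
  unfold bandWord
  simp only [h2]
  exact h1

private theorem perm_bands (L : List Band) (hL : ∀ b ∈ L, b.1 < b.2.1) (R : ℕ → Prop)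
    (hb : ∀ b ∈ L, (R b.1 ↔ R b.2.1)) (i : ℕ) : R (permWord (L.flatMap bandWord) i) ↔ R i := by
  induction L generalizing i with
  | nil => exact Iff.rfl
  | cons b L ih =>
    rw [List.flatMap_cons, permWord_append,
      ih (fun b' hb' => hL b' (List.mem_cons_of_mem _ hb')) (fun b' hb' => hb b' (List.mem_cons_of_mem _ hb')),
      perm_band b (hL b List.mem_cons_self)]
    have h1 := hb b List.mem_cons_self
    split_ifs with h2 h3
    · rw [h2]; exact h1.symm
    · rw [h3]; exact h1
    · exact Iff.rfl

/-- connectedness of the graph of disks and bands when the boundary is connected -/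
theorem surface_connected (S : BandSurface) (hS : S.IsKnot) (R : ℕ → Prop) (h0 : R 0)
    (hb : ∀ b ∈ S.bands, (R b.1 ↔ R b.2.1)) : ∀ i < S.n, R i := by
  intro i hi
  obtain ⟨m, rfl⟩ := hS i hi
  have h1 : ∀ m : ℕ, R ((permWord S.word)^[m] 0) := by
    intro m
    induction m with
    | zero => exact h0
    | succ m ih =>
      rw [Function.iterate_succ_apply']
      exact (perm_bands S.bands (fun b hb' => (S.valid b hb').1) R hb _).mpr ih
  exact h1 m

end L1c

end Pool.Agent.Helper95.DFJ

end

section

/-!
# DFJ piece A1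

Proof of A1. Suppose `c ≠ 0`. The set of all `i` such that `c s i ≠ 0` for some `s ∈ S` is nonempty (otherwise
`c = 0` by `Zc_ext`) and bounded below by `k`; let `i₀` be its minimum, `c s₀ i₀ ≠ 0`. For `n : ℕ` let
`c_n g i = c g (i - n)`; the shift commutes with `seqRep`, so `c_n ∈ Zt`. The family `c_0, c_1, …` is linearly
independent: look at the smallest index of a nontrivial relation and evaluate at `s₀`, `i₀ + n`. This contradicts
finite dimensionality. A1 for the other side: shift in the other direction (or reflect).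
-/

namespace Pool.Agent.Helper95.DFJ

open Multiplicative Module

section A1
variable {F : Type*} [Field F] {V : Type*} [AddCommGroup V] [Module F V] {G : Type*} [Group G]

/-- the shift by `n` as a linear equivalence of `Zt` -/
def shiftZt (ρ : Representation F G V) (α : G →* Multiplicative ℤ) (t : G) (n : ℤ) :
    Zt (seqRep ρ α) t ≃ₗ[F] Zt (seqRep ρ α) t where
  toFun c := ⟨fun g i => c.1 g (i - n), by
    refine ⟨fun g h => ?_, ?_⟩
    · funext i
      have := congrFun (c.2.1 g h) (i - n)
      simp only [Pi.add_apply, seqRep_apply] at this ⊢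
      rw [this, sub_right_comm]
    · funext i
      exact congrFun c.2.2 (i - n)⟩
  invFun c := ⟨fun g i => c.1 g (i + n), by
    refine ⟨fun g h => ?_, ?_⟩
    · funext i
      have := congrFun (c.2.1 g h) (i + n)
      simp only [Pi.add_apply, seqRep_apply] at this ⊢
      rw [this, add_sub_right_comm]
    · funext i
      exact congrFun c.2.2 (i + n)⟩
  map_add' a b := rfl
  map_smul' r a := rfl
  left_inv c := by
    apply Subtype.ext
    funext g i
    show c.1 g (i + n - n) = c.1 g i
    rw [add_sub_cancel_right]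
  right_inv c := by
    apply Subtype.ext
    funext g i
    show c.1 g (i - n + n) = c.1 g i
    rw [sub_add_cancel]

theorem shiftZt_apply (ρ : Representation F G V) (α : G →* Multiplicative ℤ) (t : G) (n : ℤ)
    (c : Zt (seqRep ρ α) t) (g : G) (i : ℤ) : (shiftZt ρ α t n c).1 g i = c.1 g (i - n) := rfl

/-- the subspace of the elements which vanish on `S` at the indices in `A` -/
def vanOn (ρ : Representation F G V) (α : G →* Multiplicative ℤ) (t : G) (S : Set G) (A : Set ℤ) :
    Submodule F (Zt (seqRep ρ α) t) where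
  carrier := {c | ∀ s ∈ S, ∀ i ∈ A, c.1 s i = 0}
  add_mem' {a b} ha hb s hs i hi := by
    show a.1 s i + b.1 s i = 0
    rw [ha s hs i hi, hb s hs i hi, add_zero]
  zero_mem' s hs i hi := rfl
  smul_mem' r c hc s hs i hi := by
    show r • c.1 s i = 0
    rw [hc s hs i hi, smul_zero]

theorem mem_vanOn (ρ : Representation F G V) (α : G →* Multiplicative ℤ) (t : G) (S : Set G) (A : Set ℤ)
    (c : Zt (seqRep ρ α) t) : c ∈ vanOn ρ α t S A ↔ ∀ s ∈ S, ∀ i ∈ A, c.1 s i = 0 := Iff.rfl

theorem finrank_vanOn (ρ : Representation F G V) (α : G →* Multiplicative ℤ) (t : G) (S : Set G)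
    (A B : Set ℤ) (n : ℤ) (hAB : ∀ i, i ∈ B ↔ i - n ∈ A) :
    finrank F (vanOn ρ α t S A) = finrank F (vanOn ρ α t S B) := by
  have hmap : (vanOn ρ α t S A).map (shiftZt ρ α t n).toLinearMap = vanOn ρ α t S B := by
    ext c
    rw [Submodule.mem_map]
    constructor
    · rintro ⟨d, hd, rfl⟩ s hs i hi
      exact hd s hs (i - n) ((hAB i).mp hi)
    · intro hc
      refine ⟨(shiftZt ρ α t n).symm c, ?_, LinearEquiv.apply_symm_apply _ _⟩
      intro s hs i hi
      show c.1 s (i + n) = 0
      apply hc s hs
      rw [hAB, add_sub_cancel_right]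
      exact hi
  rw [← hmap]
  exact (LinearEquiv.finrank_map_eq (shiftZt ρ α t n) (vanOn ρ α t S A)).symm

theorem vanOn_mono (ρ : Representation F G V) (α : G →* Multiplicative ℤ) (t : G) (S : Set G)
    {A B : Set ℤ} (h : A ⊆ B) : vanOn ρ α t S B ≤ vanOn ρ α t S A :=
  fun _ hc s hs i hi => hc s hs i (h hi)

theorem vanOn_eq (ρ : Representation F G V) (α : G →* Multiplicative ℤ) (t : G)
    [FiniteDimensional F (Zt (seqRep ρ α) t)] (S : Set G)
    {A B : Set ℤ} (h : A ⊆ B) (n : ℤ) (hAB : ∀ i, i ∈ B ↔ i - n ∈ A) :
    vanOn ρ α t S B = vanOn ρ α t S A :=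
  Submodule.eq_of_le_of_finrank_eq (vanOn_mono ρ α t S h) (finrank_vanOn ρ α t S A B n hAB).symm

theorem eq_zero_of_vanOn_univ (ρ : Representation F G V) (α : G →* Multiplicative ℤ) (t : G)
    (S : Set G) (hS : Subgroup.closure S = ⊤) (c : G → ℤ → V) (hc : c ∈ Zt (seqRep ρ α) t)
    (h : ∀ s ∈ S, ∀ i, c s i = 0) : c = 0 := by
  refine Zc_ext hc.1 (zero_mem _) S hS fun s hs => ?_
  funext i
  exact h s hs i

/-- a crossed homomorphism in a finite dimensional `Zt` which is bounded below on generators vanishes -/
theorem A1 (ρ : Representation F G V) (α : G →* Multiplicative ℤ) (t : G)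
    [FiniteDimensional F (Zt (seqRep ρ α) t)] (S : Set G) (hS : Subgroup.closure S = ⊤)
    (c : G → ℤ → V) (hc : c ∈ Zt (seqRep ρ α) t) (k : ℤ) (h : ∀ s ∈ S, ∀ i < k, c s i = 0) : c = 0 := by
  have key : ∀ i, k ≤ i → vanOn ρ α t S (Set.Iio i) = vanOn ρ α t S (Set.Iio k) := by
    intro i hi
    refine vanOn_eq ρ α t S (Set.Iio_subset_Iio hi) (i - k) fun j => ?_
    rw [Set.mem_Iio, Set.mem_Iio]
    constructor <;> intro hj <;> omega
  refine eq_zero_of_vanOn_univ ρ α t S hS c hc fun s hs i => ?_
  have hmem : (⟨c, hc⟩ : Zt (seqRep ρ α) t) ∈ vanOn ρ α t S (Set.Iio (max k (i + 1))) := by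
    rw [key _ (le_max_left _ _)]
    exact fun s hs i hi => h s hs i hi
  exact hmem s hs i (Set.mem_Iio.mpr (lt_of_lt_of_le (lt_add_one i) (le_max_right _ _)))

/-- bounded above -/
theorem A1' (ρ : Representation F G V) (α : G →* Multiplicative ℤ) (t : G)
    [FiniteDimensional F (Zt (seqRep ρ α) t)] (S : Set G) (hS : Subgroup.closure S = ⊤)
    (c : G → ℤ → V) (hc : c ∈ Zt (seqRep ρ α) t) (k : ℤ) (h : ∀ s ∈ S, ∀ i, k ≤ i → c s i = 0) : c = 0 := by
  have key : ∀ i, i ≤ k → vanOn ρ α t S (Set.Ici i) = vanOn ρ α t S (Set.Ici k) := by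
    intro i hi
    refine vanOn_eq ρ α t S (Set.Ici_subset_Ici.mpr hi) (i - k) fun j => ?_
    rw [Set.mem_Ici, Set.mem_Ici]
    constructor <;> intro hj <;> omega
  refine eq_zero_of_vanOn_univ ρ α t S hS c hc fun s hs i => ?_
  have hmem : (⟨c, hc⟩ : Zt (seqRep ρ α) t) ∈ vanOn ρ α t S (Set.Ici (min k i)) := by
    rw [key _ (min_le_left _ _)]
    exact fun s hs i hi => h s hs i hi
  exact hmem s hs i (Set.mem_Ici.mpr (min_le_right _ _))
end A1

end Pool.Agent.Helper95.DFJ

end
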